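import Pool.Agent.H23.BG.TargetsL

/-!
# Row L_LE of the board brg_modules: the complete sum modulo a power of a prime
-/

set_option autoImplicit false

open NumberField

namespace Pool.Agent.H53.BG

open Pool.Agent.H23.BG Pool.Agent.H23.LB
open Pool.Agent.H29.TC (LC MC)

private lemma al_map {R S : Type} [CommRing R] [CommRing S] (φ : R →+* S) (a : Fin 4 → R) :
    al (fun i => φ (a i)) = φ (al a) := by
  simp [al, map_sub, map_add]

private lemma be_map {R S : Type} [CommRing R] [CommRing S] (φ : R →+* S) (a : Fin 4 → R) :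
    be (fun i => φ (a i)) = φ (be a) := by
  simp [be, map_sub, map_mul]

private lemma ga_map {R S : Type} [CommRing R] [CommRing S] (φ : R →+* S) (a : Fin 4 → R) :
    ga (fun i => φ (a i)) = φ (ga a) := by
  simp [ga, map_sub, map_mul, map_add]

/-- fibres of a surjective homomorphism -/
private lemma card_aux {A B : Type} [AddCommGroup A] [AddCommGroup B] [Finite A] [Finite B]
    (φ : A →+ B) (hφ : Function.Surjective φ) (S : A → Prop) (U : B → Prop)
    (h : ∀ y, S y → U (φ y)) (c : ℕ) (hc : Nat.card A = Nat.card B * c) :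
    Nat.card {y // S y} ≤ c * Nat.card {u // U u} := by
  classical
  choose σ hσ using hφ
  have h1 : Nat.card B * Nat.card φ.ker ≤ Nat.card A := by
    rw [← Nat.card_prod]
    refine Nat.card_le_card_of_injective (fun x : B × φ.ker => σ x.1 + (x.2 : A)) ?_
    rintro ⟨b, k, hk⟩ ⟨b', k', hk'⟩ hbk
    simp only at hbk
    have h2 := congrArg φ hbk
    rw [map_add, map_add, hσ, hσ, (AddMonoidHom.mem_ker).1 hk, (AddMonoidHom.mem_ker).1 hk',
      add_zero, add_zero] at h2
    subst h2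
    have h3 : k = k' := add_left_cancel hbk
    subst h3
    rfl
  have h0 : 0 < Nat.card B := Nat.card_pos
  have h2 : Nat.card φ.ker ≤ c := by
    rw [hc] at h1
    exact Nat.le_of_mul_le_mul_left h1 h0
  have h3 : Nat.card {y // S y} ≤ Nat.card {u // U u} * Nat.card φ.ker := by
    rw [← Nat.card_prod]
    refine Nat.card_le_card_of_injective (fun y : {y // S y} =>
      ((⟨φ y.1, h _ y.2⟩ : {u // U u}), (⟨y.1 - σ (φ y.1), by
        rw [AddMonoidHom.mem_ker, map_sub, hσ, sub_self]⟩ : φ.ker))) ?_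
    rintro ⟨y, hy⟩ ⟨y', hy'⟩ hyy
    simp only [Prod.mk.injEq, Subtype.mk.injEq] at hyy
    obtain ⟨e1, e2⟩ := hyy
    rw [e1] at e2
    exact Subtype.ext (sub_left_injective e2)
  calc Nat.card {y // S y} ≤ Nat.card {u // U u} * Nat.card φ.ker := h3
    _ ≤ Nat.card {u // U u} * c := Nat.mul_le_mul_left _ h2
    _ = _ := mul_comm _ _

theorem pf_L_LE (hLS : Pool.Agent.H23.BG.L_LS) : Pool.Agent.H23.BG.L_LE := by
  intro K _ _ P hP hP0 r s hrs hsr hr _ η hη a
  have hle : P ^ (r + s) ≤ P ^ r := Ideal.pow_le_pow_right (Nat.le_add_right _ _)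
  have hfin : ∀ k : ℕ, Finite (𝓞 K ⧸ P ^ k) := fun k =>
    Ideal.finiteQuotientOfFreeOfNeBot _ (pow_ne_zero k hP0)
  have hcard : ∀ k : ℕ, Nat.card (𝓞 K ⧸ P ^ k) = Ideal.absNorm P ^ k := by
    intro k
    rw [← map_pow, Ideal.absNorm_apply, Submodule.cardQuot_apply]
  have hI : ∀ x ∈ Ideal.map (Ideal.Quotient.mk (P ^ (r + s))) (P ^ s),
      ∃ z ∈ P ^ s, Ideal.Quotient.mk (P ^ (r + s)) z = x := by
    intro x hx
    exact (Ideal.mem_map_iff_of_surjective _ Ideal.Quotient.mk_surjective).1 hx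
  have key := hLS (𝓞 K ⧸ P ^ (r + s)) (Ideal.map (Ideal.Quotient.mk (P ^ (r + s))) (P ^ s)) η hη.mc
    hη.prim (by
      intro x hx y hy
      obtain ⟨x', hx', rfl⟩ := hI x hx
      obtain ⟨y', hy', rfl⟩ := hI y hy
      rw [← map_mul, Ideal.Quotient.eq_zero_iff_mem]
      have h1 : x' * y' ∈ P ^ (s + s) := by
        rw [pow_add]
        exact Ideal.mul_mem_mul hx' hy'
      exact Ideal.pow_le_pow_right (Nat.add_le_add_right hrs s) h1)
    (fun i => Ideal.Quotient.mk (P ^ (r + s)) (a i))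
  refine key.trans ?_
  have := hfin r
  have hc := card_aux (A := 𝓞 K ⧸ P ^ (r + s)) (B := 𝓞 K ⧸ P ^ r)
    (Ideal.Quotient.factor hle).toAddMonoidHom (Ideal.Quotient.factor_surjective hle)
    (fun y => (∀ i, IsUnit (y + Ideal.Quotient.mk (P ^ (r + s)) (a i))) ∧
      ∀ k ∈ Ideal.map (Ideal.Quotient.mk (P ^ (r + s))) (P ^ s),
        k * (al (fun i => Ideal.Quotient.mk (P ^ (r + s)) (a i)) * y ^ 2 +
          2 * be (fun i => Ideal.Quotient.mk (P ^ (r + s)) (a i)) * y +
          ga (fun i => Ideal.Quotient.mk (P ^ (r + s)) (a i))) = 0)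
    (fun u => Ideal.Quotient.mk (P ^ r) (al a) * u ^ 2 +
      2 * Ideal.Quotient.mk (P ^ r) (be a) * u + Ideal.Quotient.mk (P ^ r) (ga a) = 0)
    (by
      rintro y ⟨-, hy⟩
      obtain ⟨z, rfl⟩ := Ideal.Quotient.mk_surjective y
      rw [al_map, be_map, ga_map] at hy
      have h1 : ∀ x ∈ P ^ s, x * (al a * z ^ 2 + 2 * be a * z + ga a) ∈ P ^ (r + s) := by
        intro x hx
        have h2 := hy _ (Ideal.mem_map_of_mem _ hx)
        rw [← Ideal.Quotient.eq_zero_iff_mem, ← h2]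
        simp only [map_mul, map_add, map_pow, map_ofNat]
      have h2 : P ^ s * Ideal.span {al a * z ^ 2 + 2 * be a * z + ga a} ≤ P ^ s * P ^ r := by
        rw [← pow_add, add_comm s r, Ideal.mul_le]
        intro x hx w hw
        obtain ⟨t, rfl⟩ := Ideal.mem_span_singleton'.1 hw
        rw [mul_left_comm]
        exact Ideal.mul_mem_left _ _ (h1 x hx)
      have h3 : P ^ s ≠ 0 := pow_ne_zero s hP0
      have h4 : Ideal.span {al a * z ^ 2 + 2 * be a * z + ga a} ≤ P ^ r := by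
        rw [← Ideal.dvd_iff_le] at h2 ⊢
        exact (mul_dvd_mul_iff_left h3).1 h2
      have h5 : al a * z ^ 2 + 2 * be a * z + ga a ∈ P ^ r :=
        h4 (Ideal.mem_span_singleton_self _)
      show Ideal.Quotient.mk (P ^ r) (al a) * (Ideal.Quotient.factor hle
          (Ideal.Quotient.mk (P ^ (r + s)) z)) ^ 2 +
        2 * Ideal.Quotient.mk (P ^ r) (be a) * (Ideal.Quotient.factor hle
          (Ideal.Quotient.mk (P ^ (r + s)) z)) + Ideal.Quotient.mk (P ^ r) (ga a) = 0
      rw [Ideal.Quotient.factor_mk, ← Ideal.Quotient.eq_zero_iff_mem.2 h5]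
      simp only [map_mul, map_add, map_pow, map_ofNat])
    (Ideal.absNorm P ^ s) (by rw [hcard, hcard, pow_add])
  have h6 : (Nat.card {y : 𝓞 K ⧸ P ^ (r + s) //
      (∀ i, IsUnit (y + Ideal.Quotient.mk (P ^ (r + s)) (a i))) ∧
      ∀ k ∈ Ideal.map (Ideal.Quotient.mk (P ^ (r + s))) (P ^ s),
        k * (al (fun i => Ideal.Quotient.mk (P ^ (r + s)) (a i)) * y ^ 2 +
          2 * be (fun i => Ideal.Quotient.mk (P ^ (r + s)) (a i)) * y +
          ga (fun i => Ideal.Quotient.mk (P ^ (r + s)) (a i))) = 0} : ℝ) ≤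
      ((Ideal.absNorm P ^ s * nrt K P r (al a) (be a) (ga a) : ℕ) : ℝ) := by
    exact_mod_cast hc
  refine h6.trans (le_of_eq ?_)
  unfold Nf
  push_cast
  rfl

end Pool.Agent.H53.BG
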