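import Pool.Agent.H23.BG.TargetsL

/-!
# Row L_NM of the board brg_modules: norms of the ideals of coincidence are multiplicative
-/

set_option autoImplicit false

open NumberField

namespace Pool.Agent.H53.BG

open Pool.Agent.H23.BG Pool.Agent.H23.LB

private lemma pr_sup {R : Type} [CommRing R] {f g x : Ideal R} (h : f ⊔ g = ⊤) :
    f * g ⊔ x = (f ⊔ x) * (g ⊔ x) := by
  have h1 : x * f ⊔ x * g = x := by
    rw [← Ideal.mul_sup, h, Ideal.mul_top]
  rw [Ideal.sup_mul, Ideal.mul_sup, Ideal.mul_sup, mul_comm f x]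
  apply le_antisymm
  · refine sup_le (le_sup_of_le_left le_sup_left) ?_
    calc x = x * f ⊔ x * g := h1.symm
      _ ≤ _ := sup_le (le_sup_of_le_left le_sup_right) (le_sup_of_le_right le_sup_left)
  · refine sup_le (sup_le le_sup_left (le_sup_of_le_right Ideal.mul_le_left)) ?_
    exact sup_le (le_sup_of_le_right Ideal.mul_le_left) (le_sup_of_le_right Ideal.mul_le_left)

private lemma top_of_le {R : Type} [CommRing R] {f g A B : Ideal R} (h : f ⊔ g = ⊤) (hA : f ≤ A)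
    (hB : g ≤ B) : A ⊔ B = ⊤ := by
  rw [eq_top_iff, ← h]
  exact sup_le_sup hA hB

private lemma mul_inf {R : Type} [CommRing R] {f g A1 A2 B1 B2 : Ideal R} (h : f ⊔ g = ⊤)
    (hA1 : f ≤ A1) (hA2 : g ≤ A2) (hB1 : f ≤ B1) (hB2 : g ≤ B2) :
    (A1 * A2) ⊓ (B1 * B2) = (A1 ⊓ B1) * (A2 ⊓ B2) := by
  rw [Ideal.mul_eq_inf_of_coprime (top_of_le h hA1 hA2),
    Ideal.mul_eq_inf_of_coprime (top_of_le h hB1 hB2),
    Ideal.mul_eq_inf_of_coprime (top_of_le h (le_inf hA1 hB1) (le_inf hA2 hB2))]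
  exact inf_inf_inf_comm _ _ _ _

theorem pf_L_NM : Pool.Agent.H23.BG.L_NM := by
  intro K _ _ f g _ _ h a
  have hgd : ∀ i j, gd (f * g) a i j = gd f a i j * gd g a i j := fun i j => pr_sup h
  have hf : ∀ i j, f ≤ gd f a i j := fun i j => le_sup_left
  have hg : ∀ i j, g ≤ gd g a i j := fun i j => le_sup_left
  have hN : ∀ I J : Ideal (𝓞 K), Nf K (I * J) = Nf K I * Nf K J := by
    intro I J
    unfold Nf
    rw [map_mul, Nat.cast_mul]
  refine ⟨?_, ?_, ?_⟩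
  · rw [hgd, hN]
  · rw [hgd, hgd, mul_inf h (hf _ _) (hg _ _) (hf _ _) (hg _ _), hN]
  · rw [hgd, hgd, hgd, mul_inf h (hf _ _) (hg _ _) (hf _ _) (hg _ _),
      mul_inf h (le_inf (hf _ _) (hf _ _)) (le_inf (hg _ _) (hg _ _)) (hf _ _) (hg _ _), hN]

end Pool.Agent.H53.BG
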