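import Pool.Agent.H23.BG.TargetsL

/-!
# Row L_PN of the board brg_modules: norms of the ideals of coincidence for a prime power
-/

set_option autoImplicit false

open NumberField

namespace Pool.Agent.H53.BG

open Pool.Agent.H23.BG Pool.Agent.H23.LB

open Classical in
/-- the exponent of an element, cut off at `e` -/
private noncomputable def vv {R : Type} [CommRing R] (P : Ideal R) (e : ℕ) (x : R) : ℕ :=
  Nat.findGreatest (fun k => x ∈ P ^ k) e

open Classical in
private lemma vv_le {R : Type} [CommRing R] (P : Ideal R) (e : ℕ) (x : R) : vv P e x ≤ e :=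
  Nat.findGreatest_le _

open Classical in
private lemma vv_iff {R : Type} [CommRing R] (P : Ideal R) (e : ℕ) (x : R) {k : ℕ} (hk : k ≤ e) :
    x ∈ P ^ k ↔ k ≤ vv P e x := by
  constructor
  · intro h
    exact Nat.le_findGreatest hk h
  · intro h
    have h1 : x ∈ P ^ vv P e x := by
      have := Nat.findGreatest_spec (P := fun k => x ∈ P ^ k) (m := 0) (n := e) (Nat.zero_le _)
        (by simp)
      exact this
    exact Ideal.pow_le_pow_right h h1

private lemma pow_inf {R : Type} [CommRing R] (P : Ideal R) (i j : ℕ) :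
    P ^ i ⊓ P ^ j = P ^ max i j := by
  rcases le_total i j with h | h
  · rw [max_eq_right h]
    exact inf_eq_right.2 (Ideal.pow_le_pow_right h)
  · rw [max_eq_left h]
    exact inf_eq_left.2 (Ideal.pow_le_pow_right h)

theorem pf_L_PN : Pool.Agent.H23.BG.L_PN := by
  intro K _ _ P hP hP0 e a
  have hPp : Prime P := Ideal.prime_of_isPrime hP0 hP
  have hN : ∀ k : ℕ, Nf K (P ^ k) = Nf K P ^ k := by
    intro k
    unfold Nf
    rw [map_pow, Nat.cast_pow]
  have hiff : ∀ i j, ∀ k ≤ e, a i - a j ∈ P ^ k ↔ k ≤ vv P e (a i - a j) :=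
    fun i j k hk => vv_iff P e _ hk
  have hgd : ∀ i j, gd (P ^ e) a i j = P ^ vv P e (a i - a j) := by
    intro i j
    have hdvd : gd (P ^ e) a i j ∣ P ^ e := Ideal.dvd_iff_le.2 le_sup_left
    obtain ⟨k, hk, hk'⟩ := (dvd_prime_pow hPp e).1 hdvd
    have hk2 : gd (P ^ e) a i j = P ^ k := associated_iff_eq.1 hk'
    have hmem : a i - a j ∈ P ^ k := by
      rw [← hk2]
      exact Ideal.mem_sup_right (Ideal.mem_span_singleton_self _)
    have h1 := (hiff i j k hk).1 hmem
    apply le_antisymm
    · refine sup_le (Ideal.pow_le_pow_right (vv_le _ _ _)) ?_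
      rw [Ideal.span_singleton_le_iff_mem]
      exact (hiff i j _ (vv_le _ _ _)).2 le_rfl
    · rw [hk2]
      exact Ideal.pow_le_pow_right h1
  refine ⟨fun i j => vv P e (a i - a j), ?_, ?_, ?_, ?_, hiff, hgd, ?_, ?_, ?_⟩
  · intro i j
    have h : ∀ i j, vv P e (a i - a j) ≤ vv P e (a j - a i) := by
      intro i j
      rw [← hiff j i _ (vv_le _ _ _)]
      have h2 := neg_mem ((hiff i j _ (vv_le P e (a i - a j))).2 le_rfl)
      rwa [neg_sub] at h2
    exact le_antisymm (h i j) (h j i)
  · intro i j k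
    have hm : min (vv P e (a i - a j)) (vv P e (a j - a k)) ≤ e :=
      le_trans (min_le_left _ _) (vv_le _ _ _)
    rw [← hiff i k _ hm, ← sub_add_sub_cancel (a i) (a j) (a k)]
    exact add_mem ((hiff i j _ hm).2 (min_le_left _ _)) ((hiff j k _ hm).2 (min_le_right _ _))
  · intro i j
    exact vv_le _ _ _
  · intro i
    refine le_antisymm (vv_le _ _ _) ?_
    rw [← hiff i i e le_rfl, sub_self]
    exact zero_mem _
  · rw [hgd, hN]
  · rw [hgd, hgd, pow_inf, hN]
  · rw [hgd, hgd, hgd, pow_inf, pow_inf, hN]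

end Pool.Agent.H53.BG
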